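import Pool.Agent.Q180.CY.Coc

/-!
# A Besicovitch cylindrical transformation all of whose orbits are dense or discrete
(MP_c1c973_an, Q1: yes)

The group is the group `ℤ_[2]` of dyadic integers (a compact metric group), the rotation is `x ↦ x + 1`
(the dyadic odometer). The function is `φ x = ∑ k, (f k (x + 1) - f k x)`, where `f k` has period
`2 ^ n (k+1)` and consists of a positive tent of height `H k` and slope `σ k` around `0` and of a
negative one around `b`, `3 b = -1`. The tents are slow compared to `2 ^ n (k-1)` and steep compared to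
`2 ^ n k`. All orbits over points `x` outside the two orbits `ℤ` and `b + ℤ` of the odometer are dense;
the orbits over `ℤ` and `b + ℤ` are discrete.
-/

set_option autoImplicit false

open Set Filter Topology

namespace Pool.Agent.Results.MP_c1c973_an.DenseOrDiscrete

/-- The cylindrical transformation `T_φ (x, t) = (x + α, t + φ x)`, a homeomorphism of `X × ℝ`. -/
def cyl {X : Type*} [AddCommGroup X] [TopologicalSpace X] [IsTopologicalAddGroup X] (α : X)
    (φ : C(X, ℝ)) : X × ℝ ≃ₜ X × ℝ where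
  toFun p := (p.1 + α, p.2 + φ p.1)
  invFun p := (p.1 - α, p.2 - φ (p.1 - α))
  left_inv p := by simp
  right_inv p := by simp
  continuous_toFun := by fun_prop
  continuous_invFun := by fun_prop

/-- The full orbit of `p` under the homeomorphism `T`. -/
def orbit {Y : Type*} [TopologicalSpace Y] (T : Y ≃ₜ Y) (p : Y) : Set Y :=
  range fun n : ℤ => (T ^ n) p

/-- The orbit of `p` is dense. -/
def DenseOrbit {Y : Type*} [TopologicalSpace Y] (T : Y ≃ₜ Y) (p : Y) : Prop := Dense (orbit T p)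

/-- The orbit of `p` is discrete: each of its points has a neighbourhood meeting the orbit only in
that point. -/
def DiscreteOrbit {Y : Type*} [TopologicalSpace Y] (T : Y ≃ₜ Y) (p : Y) : Prop :=
  ∀ z ∈ orbit T p, ∃ U ∈ 𝓝 z, U ∩ orbit T p = {z}

lemma pow_of_step {Y : Type*} [TopologicalSpace Y] (T : Y ≃ₜ Y) (a : ℤ → Y)
    (h : ∀ n, T (a n) = a (n + 1)) (n : ℤ) : (T ^ n) (a 0) = a n := by
  induction n with
  | zero => rfl
  | succ n ih =>
    rw [add_comm (n : ℤ) 1, zpow_one_add]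
    change T ((T ^ (n : ℤ)) (a 0)) = _
    rw [ih, h, add_comm]
  | pred n ih =>
    have e : (-(n : ℤ) - 1) = -1 + -(n : ℤ) := by ring
    rw [e, zpow_add, zpow_neg_one]
    change T.symm ((T ^ (-(n : ℤ))) (a 0)) = _
    rw [ih, Homeomorph.symm_apply_eq, h]
    congr 1
    ring

section

open Pool.Agent.Q180.CY

variable (P : Par) (b : ℤ_[2])

/-- the function -/
noncomputable def phi : C(ℤ_[2], ℝ) := ⟨fun x => P.S b x 1, P.S_continuous b⟩

lemma cyl_pow (x : ℤ_[2]) (t : ℝ) (n : ℤ) :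
    (cyl 1 (phi P b) ^ n) (x, t) = (x + n, t + P.S b x n) := by
  have := pow_of_step (cyl 1 (phi P b)) (fun n : ℤ => (x + n, t + P.S b x n)) (by
    intro n
    have h := P.S_add b x n 1
    refine Prod.ext ?_ ?_
    · change x + (n : ℤ_[2]) + 1 = x + ((n + 1 : ℤ) : ℤ_[2])
      push_cast; ring
    · change t + P.S b x n + P.S b (x + n) 1 = t + P.S b x (n + 1)
      rw [h]; ring) n
  simpa [P.S_zero b x] using this

lemma mem_orbit (x : ℤ_[2]) (t : ℝ) (z : ℤ_[2] × ℝ) :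
    z ∈ orbit (cyl 1 (phi P b)) (x, t) ↔ ∃ n : ℤ, z = (x + n, t + P.S b x n) := by
  constructor
  · rintro ⟨n, rfl⟩
    exact ⟨n, cyl_pow P b x t n⟩
  · rintro ⟨n, rfl⟩
    exact ⟨n, cyl_pow P b x t n⟩

variable {b}

lemma dense_of (hb : 3 * b = -1) {x : ℤ_[2]} (hx0 : ∀ m : ℤ, x ≠ m) (hx1 : ∀ m : ℤ, x ≠ b + m)
    (t : ℝ) : DenseOrbit (cyl 1 (phi P b)) (x, t) := by
  unfold DenseOrbit
  rw [Metric.dense_iff]
  rintro ⟨y, t0⟩ r hr
  obtain ⟨N1, hN1⟩ := exists_nat_gt |t0 - t|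
  obtain ⟨N2, hN2⟩ := exists_pow_lt_of_lt_one hr (show (1 / 2 : ℝ) < 1 by norm_num)
  obtain ⟨j, hj, hU, hD⟩ := P.dichotomy hb hx0 hx1 (max N1 N2)
  have hs : |t0 - t| ≤ j := by
    have : (N1 : ℝ) ≤ j := by exact_mod_cast (le_max_left N1 N2).trans hj
    linarith
  have hr2 : (1 / 2 : ℝ) ^ j < r := by
    refine lt_of_le_of_lt ?_ hN2
    exact pow_le_pow_of_le_one (by norm_num) (by norm_num) ((le_max_right N1 N2).trans hj)
  obtain ⟨m, hm, hS⟩ := P.hit hb hU hD y hs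
  refine ⟨(x + m, t + P.S b x m), ?_, (mem_orbit P b x t _).2 ⟨m, rfl⟩⟩
  rw [Metric.mem_ball, Prod.dist_eq]
  apply max_lt
  · change dist (x + (m : ℤ_[2])) y < r
    rw [dist_eq_norm]
    refine lt_of_le_of_lt (norm_le_of_dvd hm) (lt_of_le_of_lt ?_ hr2)
    rw [zpow_neg, zpow_natCast, one_div, inv_pow]
    apply inv_anti₀ (by positivity)
    exact pow_le_pow_right₀ (by norm_num) P.hn.le_apply
  · change dist (t + P.S b x m) t0 < r
    rw [Real.dist_eq]
    have e : t + P.S b x m - t0 = P.S b x m - (t0 - t) := by ring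
    rw [e]
    linarith

/-- escape to infinity implies discreteness -/
lemma discrete_of {x : ℤ_[2]}
    (hinf : ∀ C : ℝ, ∃ M : ℝ, ∀ m : ℤ, M ≤ |(m : ℝ)| → C ≤ |P.S b x m|) (t : ℝ) :
    DiscreteOrbit (cyl 1 (phi P b)) (x, t) := by
  intro z hz
  obtain ⟨n, rfl⟩ := (mem_orbit P b x t z).1 hz
  obtain ⟨M, hM⟩ := hinf (|P.S b x n| + 1)
  set O := orbit (cyl 1 (phi P b)) (x, t) with hO
  set U : Set (ℤ_[2] × ℝ) := {w | |w.2 - (t + P.S b x n)| < 1} with hU
  have hUopen : IsOpen U := by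
    apply isOpen_lt
    · exact (continuous_snd.sub continuous_const).abs
    · exact continuous_const
  have hfin : (U ∩ O).Finite := by
    have hsub : U ∩ O ⊆ (fun m : ℤ => ((x + m : ℤ_[2]), t + P.S b x m)) ''
        (Icc (-⌈M⌉) ⌈M⌉ : Set ℤ) := by
      rintro w ⟨hwU, hwO⟩
      obtain ⟨m, rfl⟩ := (mem_orbit P b x t w).1 hwO
      refine ⟨m, ?_, rfl⟩
      by_contra hcon
      have hmM : M ≤ |(m : ℝ)| := by
        by_contra h1
        push Not at h1
        apply hcon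
        rw [abs_lt] at h1
        have h2 := Int.le_ceil M
        have h3 : ((m : ℤ) : ℝ) ≤ (⌈M⌉ : ℤ) := by linarith [h1.2]
        have h4 : ((-⌈M⌉ : ℤ) : ℝ) ≤ m := by push_cast; linarith [h1.1]
        exact ⟨by exact_mod_cast h4, by exact_mod_cast h3⟩
      have h5 := hM m hmM
      have h6 : |t + P.S b x m - (t + P.S b x n)| < 1 := hwU
      have e : t + P.S b x m - (t + P.S b x n) = P.S b x m - P.S b x n := by ring
      rw [e] at h6
      have h7 := abs_sub_abs_le_abs_sub (P.S b x m) (P.S b x n)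
      linarith
    exact ((finite_Icc _ _).image _).subset hsub
  refine ⟨U \ ((U ∩ O) \ {(x + (n : ℤ_[2]), t + P.S b x n)}), ?_, ?_⟩
  · apply IsOpen.mem_nhds
    · exact hUopen.sdiff (hfin.subset sdiff_subset).isClosed
    · refine ⟨?_, fun h => h.2 rfl⟩
      simp [hU]
  · ext w
    constructor
    · rintro ⟨⟨hwU, hw2⟩, hwO⟩
      by_contra hne
      exact hw2 ⟨⟨hwU, hwO⟩, hne⟩
    · rintro rfl
      exact ⟨⟨by simp [hU], fun h => h.2 rfl⟩, hz⟩

lemma escape_int (hb : 3 * b = -1) (a : ℤ) (C : ℝ) :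
    ∃ M : ℝ, ∀ m : ℤ, M ≤ |(m : ℝ)| → C ≤ |P.S b a m| := by
  obtain ⟨K, hK⟩ := exists_nat_gt (C + |P.S b 0 a|)
  refine ⟨P.Q (K + 1) + |(a : ℝ)|, ?_⟩
  intro m hm
  have h1 := P.S_add b 0 a m
  rw [zero_add] at h1
  have h2 : P.Q (K + 1) ≤ |((a + m : ℤ) : ℝ)| := by
    push_cast
    have h5 := abs_sub_abs_le_abs_sub (m : ℝ) (-a : ℝ)
    rw [abs_neg, sub_neg_eq_add, add_comm (m : ℝ)] at h5
    linarith
  have h3 := P.S_int_le hb (K := K) (m := a + m) (by linarith [P.Qpos (K + 1)])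
  have h4 : P.S b a m = P.S b 0 (a + m) - P.S b 0 a := by linarith
  have h5 : P.S b a m ≤ - C := by
    rw [h4]
    have := neg_abs_le (P.S b 0 a)
    have hK0 : (0:ℝ) ≤ K := Nat.cast_nonneg K
    linarith
  have := neg_abs_le (P.S b a m)
  linarith

lemma escape_b (hb : 3 * b = -1) (a : ℤ) (C : ℝ) :
    ∃ M : ℝ, ∀ m : ℤ, M ≤ |(m : ℝ)| → C ≤ |P.S b (b + a) m| := by
  obtain ⟨M, hM⟩ := escape_int P hb (-a) C
  refine ⟨M, fun m hm => ?_⟩
  have h1 := P.S_refl b ((-a : ℤ) : ℤ_[2]) (-m)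
  rw [neg_neg] at h1
  have e : b - ((-a : ℤ) : ℤ_[2]) = b + a := by push_cast; ring
  rw [e] at h1
  rw [h1, abs_neg]
  apply hM
  push_cast
  rwa [abs_neg]

end

/-- **Q1 is answered by yes.** There are a continuous function `φ` on the compact group `ℤ_[2]` of dyadic
integers and `b ∈ ℤ_[2]` such that for the minimal rotation `x ↦ x + 1` the cylindrical transformation
has a dense and a discrete orbit, every orbit is dense or discrete, the orbits over the points of
`ℤ ∪ (b + ℤ)` are discrete and all other orbits are dense. -/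
theorem result :
    ∃ (φ : C(ℤ_[2], ℝ)) (b : ℤ_[2]),
      (∀ x : ℤ_[2], Dense (range fun n : ℤ => x + n • (1 : ℤ_[2]))) ∧
      (∃ p, DenseOrbit (cyl 1 φ) p) ∧ (∃ p, DiscreteOrbit (cyl 1 φ) p) ∧
      (∀ p, DenseOrbit (cyl 1 φ) p ∨ DiscreteOrbit (cyl 1 φ) p) ∧
      (∀ p : ℤ_[2] × ℝ, (∃ m : ℤ, p.1 = m ∨ p.1 = b + m) → DiscreteOrbit (cyl 1 φ) p) ∧
      (∀ p : ℤ_[2] × ℝ, (¬ ∃ m : ℤ, p.1 = m ∨ p.1 = b + m) → DenseOrbit (cyl 1 φ) p) := by
  obtain ⟨b, hb⟩ := Pool.Agent.Q180.CY.exists_b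
  set P := Pool.Agent.Q180.CY.par with hP
  have hdisc : ∀ p : ℤ_[2] × ℝ, (∃ m : ℤ, p.1 = m ∨ p.1 = b + m) →
      DiscreteOrbit (cyl 1 (phi P b)) p := by
    rintro ⟨x, t⟩ ⟨m, h | h⟩
    · simp only at h
      subst h
      exact discrete_of P (escape_int P hb m) t
    · simp only at h
      subst h
      exact discrete_of P (escape_b P hb m) t
  have hdense : ∀ p : ℤ_[2] × ℝ, (¬ ∃ m : ℤ, p.1 = m ∨ p.1 = b + m) →
      DenseOrbit (cyl 1 (phi P b)) p := by
    rintro ⟨x, t⟩ h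
    push Not at h
    exact dense_of P hb (fun m => (h m).1) (fun m => (h m).2) t
  refine ⟨phi P b, b, ?_, ?_, ?_, ?_, hdisc, hdense⟩
  · intro x
    have h1 : DenseRange (fun n : ℤ => (n : ℤ_[2])) := by
      have h2 : DenseRange (Nat.cast : ℕ → ℤ_[2]) := PadicInt.denseRange_natCast
      refine Dense.mono ?_ h2
      rintro _ ⟨n, rfl⟩
      exact ⟨(n : ℤ), by simp⟩
    have h3 : DenseRange (fun z : ℤ_[2] => x + z) :=
      (Homeomorph.addLeft x).surjective.denseRange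
    have h4 := h3.comp h1 (continuous_const.add continuous_id)
    have e : (fun n : ℤ => x + n • (1 : ℤ_[2])) = (fun z : ℤ_[2] => x + z) ∘ (fun n : ℤ => (n : ℤ_[2])) := by
      funext n
      simp
    rw [e]
    exact h4
  · -- the point `1/5`
    have h : IsUnit (5 : ℤ_[2]) := by
      rw [PadicInt.isUnit_iff]
      have := (PadicInt.norm_natCast_eq_one_iff (p := 2) (n := 5)).2 (by norm_num)
      simpa using this
    obtain ⟨w, hw⟩ := h
    have hx : 5 * ((w⁻¹ : ℤ_[2]ˣ) : ℤ_[2]) = 1 := by rw [← hw]; simp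
    refine ⟨(((w⁻¹ : ℤ_[2]ˣ) : ℤ_[2]), 0), hdense _ ?_⟩
    rintro ⟨m, h1 | h1⟩
    · simp only at h1
      rw [h1] at hx
      have h2 : ((5 * m : ℤ) : ℤ_[2]) = ((1 : ℤ) : ℤ_[2]) := by push_cast; exact hx
      have h3 : 5 * m = 1 := by exact_mod_cast h2
      omega
    · simp only at h1
      rw [h1] at hx
      have h2 : ((-5 + 15 * m : ℤ) : ℤ_[2]) = ((3 : ℤ) : ℤ_[2]) := by
        push_cast
        linear_combination 3 * hx - 5 * hb
      have h3 : -5 + 15 * m = 3 := by exact_mod_cast h2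
      omega
  · exact ⟨(0, 0), hdisc _ ⟨0, Or.inl (by simp)⟩⟩
  · intro p
    by_cases h : ∃ m : ℤ, p.1 = m ∨ p.1 = b + m
    · exact Or.inr (hdisc p h)
    · exact Or.inl (hdense p h)

end Pool.Agent.Results.MP_c1c973_an.DenseOrDiscrete
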